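import Pool.Agent.H472R3.Star

/-!
# The optimal pinching constant `δ*(5)` is positive (MP_21227e_gt)

There is a `δ₀ > 0` and a simply connected `δ₀`-pinched 5-manifold which is not homeomorphic to
`S⁵`; hence `δ*(5) ≥ δ₀ > 0`.

The manifold is `S² × S³` with the team's metric of positive sectional curvature (MP_ebf916_gt and
MP_1b4d75_gt; helpers 118, 144, 235, 308, 349, 366, 381, 464, 498, 515, 563, 712, 728, 754, 758,
821, 829, 839, 840, 878, 893, 898, 902, 907, 917, 952, 989), rescaled. New here: uniform bounds of
the curvature by compactness, rescaling, and the topology of `S² × S³`.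
-/

open Pool.Agent.H472R3 in
/-- There is a `δ ∈ (0, 1]` such that not every compact simply connected Riemannian 5-manifold with
sectional curvatures in `[δ, 1]` is homeomorphic to `S⁵`; hence `δ*(5) ≥ δ > 0`. -/
theorem Pool.Agent.Results.MP_21227e_gt.PositiveInDimFive.result :
    ∃ δ : ℝ, 0 < δ ∧ δ ≤ 1 ∧ ¬ EveryPinchedIs 5 IsStandardType5 δ ∧
      (δ : EReal) ≤ optimalPinching 5 IsStandardType5 :=
  five_pos
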