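import Pool.Agent.H472R3.Star

/-!
# The optimal pinching constant `δ*(4)` is positive (MP_21227e_gt)

There is a `δ₀ > 0` and a simply connected `δ₀`-pinched 4-manifold which is homeomorphic neither to
`S⁴` (or `ℍP¹`, which is `S⁴`) nor to `ℂP²`; hence `δ*(4) ≥ δ₀ > 0`.

The manifold is `S² × S²` with the team's metric of positive sectional curvature (Hopf's problem,
MP_23b187_gt; helpers 118, 144, 235, 308, 349, 366, 381, 464, 498, 515, 563, 712, 728, 754, 758,
821, 829, 839, 840, 878, 893, 898, 902, 907, 917, 952, 989), rescaled. New here: uniform bounds of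
the curvature by compactness, rescaling, and the topology: `S² × S²` is simply connected, not
homeomorphic to `S⁴` (the first factor is contractible in the complement of a point of `S⁴`, while
the identity of `S²` is not nullhomotopic), and not homeomorphic to `ℂP²` (every map `S³ → ℂP²`
lifts to `S⁵` and is nullhomotopic, while the Hopf map `S³ → S²` is not).
-/

open Pool.Agent.H472R3 in
/-- There is a `δ ∈ (0, 1]` such that not every compact simply connected Riemannian 4-manifold with
sectional curvatures in `[δ, 1]` is homeomorphic to `S⁴` or to `ℂP²`; hence `δ*(4) ≥ δ > 0`. -/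
theorem Pool.Agent.Results.MP_21227e_gt.PositiveInDimFour.result :
    ∃ δ : ℝ, 0 < δ ∧ δ ≤ 1 ∧ ¬ EveryPinchedIs 4 IsStandardType4 δ ∧
      (δ : EReal) ≤ optimalPinching 4 IsStandardType4 :=
  four_pos
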